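import Pool.Agent.Lib.MP_cdd7b4_an.MX.Iface

set_option autoImplicit false

/-! # HEAVY1: the mass and the probability of `{g > τ}` from the mean of the maximum -/

namespace Pool.Agent.Lib.MP_cdd7b4_an.MX.H70

open Pool.Agent.Lib.MP_cdd7b4_an.H80
open scoped BigOperators

/-- The average of `∑ i, ∑ j, a (f i) * b (f j)`. -/
lemma av_double {P : Type} [Fintype P] [Nonempty P] (M : ℕ) (a b : P → ℝ) :
    av (fun f : Fin M → P => (∑ j, a (f j)) * ∑ i, b (f i)) =
      M * av (fun z => a z * b z) + M * (M - 1) * (av a * av b) := by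
  have e : ∀ f : Fin M → P, (∑ j, a (f j)) * ∑ i, b (f i) = ∑ j, ∑ i, a (f j) * b (f i) := by
    intro f
    rw [Finset.sum_mul_sum]
  simp only [e]
  rw [av_sum]
  have e2 : ∀ j : Fin M, av (fun f : Fin M → P => ∑ i, a (f j) * b (f i)) =
      av (fun z => a z * b z) + ((M : ℝ) - 1) * (av a * av b) := by
    intro j
    rw [av_sum]
    have e3 : ∀ i : Fin M, av (fun f : Fin M → P => a (f j) * b (f i)) =
        av a * av b + if i = j then av (fun z => a z * b z) - av a * av b else 0 := by
      intro i
      by_cases hij : i = j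
      · subst hij
        rw [if_pos rfl]
        have := av_coord (ι := Fin M) i (fun q => a q * b q)
        rw [this]
        ring
      · rw [if_neg hij, add_zero]
        exact av_coord2 (fun h => hij h.symm) _ _
    rw [Finset.sum_congr rfl (fun i _ => e3 i), Finset.sum_add_distrib, Finset.sum_ite_eq']
    simp only [Finset.mem_univ, if_true, Finset.sum_const, Finset.card_univ, Fintype.card_fin,
      nsmul_eq_mul]
    ring
  rw [Finset.sum_congr rfl (fun j _ => e2 j)]
  simp only [Finset.sum_const, Finset.card_univ, Fintype.card_fin, nsmul_eq_mul]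
  ring

lemma av_single {P : Type} [Fintype P] [Nonempty P] (M : ℕ) (a : P → ℝ) :
    av (fun f : Fin M → P => ∑ j, a (f j)) = M * av a := by
  rw [av_sum, Finset.sum_congr rfl (fun j _ => av_coord (ι := Fin M) j a)]
  simp

theorem heavy1 : Heavy1Statement := by
  intro P _ _ g M h τ hg hM hτ hh hgh
  classical
  set A : P → ℝ := fun z => if τ < g z then 1 else 0 with hA
  set G : P → ℝ := fun z => if τ < g z then g z else 0 with hG
  have hAA : (fun z => A z * A z) = A := by
    funext z
    simp only [hA]
    split_ifs <;> simp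
  have hGA : (fun z => G z * A z) = G := by
    funext z
    simp only [hA, hG]
    split_ifs <;> simp
  have hθ : 0 ≤ av A := av_nonneg fun z => by
    simp only [hA]
    split_ifs <;> norm_num
  have hγ : 0 ≤ av G := av_nonneg fun z => by
    simp only [hG]
    split_ifs
    · exact hg z
    · exact le_rfl
  have hM0 : (0 : ℝ) ≤ M := Nat.cast_nonneg M
  have hM1 : (1 : ℝ) ≤ M := by exact_mod_cast hM
  -- the number of large samples
  have hK : ∀ f : Fin M → P, ∑ j, A (f j) =
      ((Finset.univ.filter fun j => τ < g (f j)).card : ℝ) := by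
    intro f
    simp only [hA]
    rw [Finset.sum_ite, Finset.sum_const_zero, add_zero, Finset.sum_const, nsmul_eq_mul, mul_one]
  have hS : ∀ f : Fin M → P, ∑ j, G (f j) =
      ∑ j ∈ Finset.univ.filter (fun j => τ < g (f j)), g (f j) := by
    intro f
    simp only [hG]
    rw [Finset.sum_ite, Finset.sum_const_zero, add_zero]
  constructor
  · intro hs
    have hs' : (M : ℝ) * av A ≤ 1 / 2 := hs
    have hp : ∀ f : Fin M → P, 2 * (∑ j, G (f j)) - (∑ j, G (f j)) * ∑ j, A (f j) ≤ h f := by
      intro f
      rw [hK, hS]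
      set s := Finset.univ.filter fun j => τ < g (f j) with hs0
      have hS0 : 0 ≤ ∑ j ∈ s, g (f j) := Finset.sum_nonneg fun j _ => hg _
      rcases Nat.lt_or_ge s.card 2 with hc | hc
      · rcases Nat.lt_or_ge s.card 1 with hc1 | hc1
        · have : s = ∅ := Finset.card_eq_zero.1 (by omega)
          rw [this]
          simpa using hh f
        · obtain ⟨j, hj⟩ := Finset.card_eq_one.1 (by omega : s.card = 1)
          rw [hj]
          simp only [Finset.sum_singleton, Finset.card_singleton, Nat.cast_one, mul_one]
          have := hgh f j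
          linarith
      · have h2 : (2 : ℝ) ≤ s.card := by exact_mod_cast hc
        have := mul_nonneg hS0 (sub_nonneg.2 h2)
        have := hh f
        nlinarith
    have hav := av_mono hp
    rw [av_sub (fun f : Fin M → P => 2 * ∑ j, G (f j)) (fun f => (∑ j, G (f j)) * ∑ j, A (f j)),
      av_const_mul, av_single, av_double, hGA] at hav
    show (M : ℝ) * av G ≤ 2 * av h
    have h1 : (M : ℝ) * av G * ((M - 1) * av A) ≤ M * av G * (1 / 2) := by
      refine mul_le_mul_of_nonneg_left ?_ (mul_nonneg hM0 hγ)
      have : ((M : ℝ) - 1) * av A ≤ M * av A := by nlinarith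
      linarith
    nlinarith
  · intro hs
    have hs' : (M : ℝ) * av A ≤ 1 := hs
    have hp : ∀ f : Fin M → P, τ * (3 / 2 * (∑ j, A (f j)) -
        1 / 2 * ((∑ j, A (f j)) * ∑ j, A (f j))) ≤ h f := by
      intro f
      rw [hK]
      set s := Finset.univ.filter fun j => τ < g (f j) with hs0
      rcases Nat.lt_or_ge s.card 1 with hc1 | hc1
      · have : s.card = 0 := by omega
        rw [this]
        simpa using hh f
      · obtain ⟨j, hj⟩ := Finset.card_pos.1 (by omega : 0 < s.card)
        have h1 : τ ≤ h f := ((Finset.mem_filter.1 hj).2.le).trans (hgh f j)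
        have h2 : 3 / 2 * (s.card : ℝ) - 1 / 2 * ((s.card : ℝ) * s.card) ≤ 1 := by
          rcases Nat.lt_or_ge s.card 2 with hc | hc
          · have : s.card = 1 := by omega
            rw [this]
            norm_num
          · have h3 : (2 : ℝ) ≤ s.card := by exact_mod_cast hc
            nlinarith
        calc τ * (3 / 2 * (s.card : ℝ) - 1 / 2 * ((s.card : ℝ) * s.card)) ≤ τ * 1 :=
              mul_le_mul_of_nonneg_left h2 hτ
          _ ≤ h f := by rw [mul_one]; exact h1
    have hav := av_mono hp
    rw [av_const_mul, av_sub (fun f : Fin M → P => 3 / 2 * ∑ j, A (f j))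
      (fun f => 1 / 2 * ((∑ j, A (f j)) * ∑ j, A (f j))), av_const_mul, av_const_mul, av_single,
      av_double, hAA] at hav
    show (M : ℝ) * τ * av A ≤ 2 * av h
    have h1 : (M : ℝ) * av A * ((M - 1) * av A) ≤ M * av A * 1 := by
      refine mul_le_mul_of_nonneg_left ?_ (mul_nonneg hM0 hθ)
      have : ((M : ℝ) - 1) * av A ≤ M * av A := by nlinarith
      linarith
    have h2 := mul_le_mul_of_nonneg_left h1 hτ
    nlinarith

end Pool.Agent.Lib.MP_cdd7b4_an.MX.H70
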