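import Pool.Agent.Lib.MP_cdd7b4_an.MX.Iface

set_option autoImplicit false

/-! # ROWS: a positive proportion of good rows -/

namespace Pool.Agent.Lib.MP_cdd7b4_an.MX.H70

open Pool.Agent.Lib.MP_cdd7b4_an.H80
open scoped BigOperators

lemma exists_small (c : ℝ) (hc : 0 < c) :
    ∃ j : ℕ, (1 + (j : ℝ)) ^ 2 * (2 : ℝ) ^ (-((j : ℝ) / 2)) ≤ c := by
  set r : ℝ := (2 : ℝ) ^ (-(1 / 2) : ℝ) with hr
  have hr0 : 0 < r := by positivity
  have hr1 : r < 1 := Real.rpow_lt_one_of_one_lt_of_neg (by norm_num) (by norm_num)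
  have h := tendsto_pow_const_mul_const_pow_of_abs_lt_one 2
    (r := r) (by rw [abs_of_pos hr0]; exact hr1)
  have h' := h.comp (Filter.tendsto_add_atTop_nat 1)
  have he := (h'.eventually (gt_mem_nhds (mul_pos hc hr0))).exists
  obtain ⟨j, hj⟩ := he
  refine ⟨j, ?_⟩
  have e : (2 : ℝ) ^ (-((j : ℝ) / 2)) = r ^ j := by
    rw [hr, ← Real.rpow_natCast, ← Real.rpow_mul (by norm_num)]
    congr 1
    ring
  rw [e]
  simp only [Function.comp] at hj
  push_cast at hj
  rw [pow_succ r j, ← mul_assoc] at hj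
  have := lt_of_mul_lt_mul_right hj hr0.le
  rw [add_comm]
  exact this.le

/-- Markov's inequality. -/
lemma markov {P : Type*} [Fintype P] (f : P → ℝ) (hf : ∀ z, 0 ≤ f z) (t : ℝ) (ht : 0 < t) :
    t * av (fun z => if t < f z then (1 : ℝ) else 0) ≤ av f := by
  rw [← av_const_mul]
  refine av_mono fun z => ?_
  split_ifs with h
  · linarith
  · simpa using hf z

theorem rows (hH : Heavy1Statement) : RowsStatement := by
  intro β hβ
  obtain ⟨j, hj⟩ := exists_small (1 / (16 * β)) (by positivity)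
  set τ : ℝ := 2 ^ (j + 1) with hτ
  have hτ0 : 0 < τ := by positivity
  have hτ1 : 1 ≤ τ := one_le_pow₀ (by norm_num)
  refine ⟨4 * β * τ, 1 / (4 * τ), j, by nlinarith, by positivity, ?_⟩
  intro N F F' G h hN hF' hFF hG hh hF1 hF2 hG1 hk
  classical
  have : Nonempty (Fin N) := ⟨⟨0, hN⟩⟩
  have hF : ∀ n, 0 ≤ F n := fun n => (hF' n).trans (hFF n)
  obtain ⟨hk1, hk2⟩ := hk j le_rfl
  have hM1 := markov F hF τ hτ0
  rw [hF1] at hM1
  have hpow : (τ : ℝ) = 2 * 2 ^ j := by rw [hτ, pow_succ]; ring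
  -- bulk
  have hb := (hH (Fin N) F (2 ^ j) (h j) τ hF Nat.one_le_two_pow hτ0.le (hh j) hk1).1 (by
    push_cast
    rw [hpow] at hM1
    have e : av (fun z => if τ < F z then (1 : ℝ) else 0) =
      av (fun z => if 2 * 2 ^ j < F z then (1 : ℝ) else 0) := by rw [hpow]
    rw [e]
    linarith)
  push_cast at hb
  have h2j : (0 : ℝ) < 2 ^ j := by positivity
  have hs : (2 : ℝ) ^ ((j : ℝ) / 2) * (2 : ℝ) ^ ((j : ℝ) / 2) = 2 ^ j := by
    rw [← Real.rpow_add (by norm_num), ← Real.rpow_natCast]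
    congr 1
    ring
  have hs2 : (2 : ℝ) ^ ((j : ℝ) / 2) = 2 ^ j * (2 : ℝ) ^ (-((j : ℝ) / 2)) := by
    rw [← Real.rpow_natCast, ← Real.rpow_add (by norm_num)]
    congr 1
    ring
  have hb2 : av (fun z => if τ < F z then F z else 0) ≤ 1 / 8 := by
    have h3 : (2 : ℝ) ^ j * av (fun z => if τ < F z then F z else 0) ≤ 2 ^ j * (1 / 8) := by
      refine hb.trans ?_
      calc 2 * av (h j) ≤ 2 * (β * (1 + j) ^ 2 * (2 : ℝ) ^ ((j : ℝ) / 2)) := by linarith
        _ = 2 ^ j * (2 * β * ((1 + (j : ℝ)) ^ 2 * (2 : ℝ) ^ (-((j : ℝ) / 2)))) := by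
          rw [hs2]
          ring
        _ ≤ 2 ^ j * (2 * β * (1 / (16 * β))) := by
          refine mul_le_mul_of_nonneg_left (mul_le_mul_of_nonneg_left hj (by positivity)) h2j.le
        _ = 2 ^ j * (1 / 8) := by
          field_simp
          norm_num
    exact le_of_mul_le_mul_left h3 h2j
  -- good rows
  set R : Finset (Fin N) := Finset.univ.filter fun n => 1 / 4 ≤ F' n ∧ F n ≤ τ ∧ G n ≤ 4 * β * τ
    with hR
  refine ⟨R, ?_, fun n hn => ?_⟩
  swap
  · obtain ⟨h1, h2, h3⟩ := (Finset.mem_filter.1 hn).2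
    exact ⟨h1, h2.trans (by nlinarith), h3⟩
  have hMG := markov G hG (4 * β * τ) (by positivity)
  have hp : ∀ n, F' n ≤ (if τ < F n then F n else 0) + 1 / 4 +
      τ * ((if n ∈ R then (1 : ℝ) else 0) + if 4 * β * τ < G n then 1 else 0) := by
    intro n
    by_cases h1 : τ < F n
    · rw [if_pos h1]
      have h2 : 0 ≤ τ * ((if n ∈ R then (1 : ℝ) else 0) + if 4 * β * τ < G n then 1 else 0) := by
        refine mul_nonneg hτ0.le (add_nonneg ?_ ?_) <;> split_ifs <;> norm_num
      linarith [hFF n]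
    · rw [if_neg h1]
      push Not at h1
      by_cases h2 : 1 / 4 ≤ F' n
      · by_cases h3 : 4 * β * τ < G n
        · rw [if_pos h3]
          have h4 : 0 ≤ τ * (if n ∈ R then (1 : ℝ) else 0) := by
            refine mul_nonneg hτ0.le ?_
            split_ifs <;> norm_num
          rw [mul_add, mul_one]
          linarith [hFF n]
        · have h4 : n ∈ R := Finset.mem_filter.2 ⟨Finset.mem_univ _, h2, h1, not_lt.1 h3⟩
          rw [if_pos h4, if_neg h3, add_zero, mul_one]
          linarith [hFF n]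
      · push Not at h2
        have h5 : 0 ≤ τ * ((if n ∈ R then (1 : ℝ) else 0) + if 4 * β * τ < G n then 1 else 0) := by
          refine mul_nonneg hτ0.le (add_nonneg ?_ ?_) <;> split_ifs <;> norm_num
        linarith
  have hav := av_mono hp
  have e1 : av (fun n => (if τ < F n then F n else 0) + 1 / 4 +
      τ * ((if n ∈ R then (1 : ℝ) else 0) + if 4 * β * τ < G n then 1 else 0)) =
      av (fun n => if τ < F n then F n else 0) + 1 / 4 +
        τ * (av (fun n => if n ∈ R then (1 : ℝ) else 0) +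
          av (fun n => if 4 * β * τ < G n then (1 : ℝ) else 0)) := by
    rw [av_add (fun n => (if τ < F n then F n else 0) + 1 / 4)
      (fun n => τ * ((if n ∈ R then (1 : ℝ) else 0) + if 4 * β * τ < G n then 1 else 0)),
      av_add (fun n => if τ < F n then F n else 0) (fun _ => 1 / 4), av_const, av_const_mul,
      av_add (fun n => if n ∈ R then (1 : ℝ) else 0) (fun n => if 4 * β * τ < G n then 1 else 0)]
  rw [e1] at hav
  have e2 : av (fun n => if n ∈ R then (1 : ℝ) else 0) = (R.card : ℝ) / N := by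
    simp only [av, Finset.sum_ite_mem, Finset.univ_inter, Finset.sum_const, nsmul_eq_mul, mul_one,
      Fintype.card_fin]
    ring
  rw [e2] at hav
  have hG3 : τ * av (fun n => if 4 * β * τ < G n then (1 : ℝ) else 0) ≤ 1 / 4 := by
    have h1 : (4 * β) * (τ * av (fun n => if 4 * β * τ < G n then (1 : ℝ) else 0)) ≤
        (4 * β) * (1 / 4) := by
      rw [← mul_assoc]
      linarith
    exact le_of_mul_le_mul_left h1 (by linarith)
  have hNr : (0 : ℝ) < N := by exact_mod_cast hN
  have h9 : 1 / 4 ≤ τ * ((R.card : ℝ) / N) := by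
    rw [mul_add] at hav
    linarith
  have h10 : 1 / (4 * τ) ≤ (R.card : ℝ) / N := by
    rw [div_le_iff₀ (by positivity)]
    nlinarith
  rw [le_div_iff₀ hNr] at h10
  exact h10

end Pool.Agent.Lib.MP_cdd7b4_an.MX.H70
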