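import Pool.Agent.Lib.MP_cdd7b4_an.MX.Iface

set_option autoImplicit false

/-! # SLOPE: a slowly growing function touches a line of small slope from above -/

namespace Pool.Agent.Lib.MP_cdd7b4_an.MX.H70

open scoped BigOperators

lemma incr {g : ℕ → ℝ} {a N : ℕ}
    (hg : ∀ k, a ≤ k → k < a + N → g k ≤ g (k + 1) ∧ g (k + 1) ≤ g k + 1) {k : ℕ} (hk : a ≤ k) :
    ∀ l, k ≤ l → l ≤ a + N → g k ≤ g l ∧ g l ≤ g k + ((l : ℝ) - k) := by
  intro l hl
  induction l, hl using Nat.le_induction with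
  | base => intro _; constructor <;> simp
  | succ l hl ih =>
    intro h
    obtain ⟨h1, h2⟩ := ih (by omega)
    obtain ⟨h3, h4⟩ := hg l (by omega) (by omega)
    push_cast
    constructor <;> linarith

lemma step {g : ℕ → ℝ} {a H L : ℕ} (hL : 1 ≤ L)
    (hg : ∀ k, a ≤ k → k < a + 2 * H → g k ≤ g (k + 1) ∧ g (k + 1) ≤ g k + 1)
    (hH : 4 * L ^ 2 ≤ H) (r : ℝ) (hr : g (a + 2 * H) - g a = r * (2 * H))
    (hr0 : 0 ≤ r) (hr1 : r ≤ 1)
    (hc : (r - 1 / (2 * L)) * H ≤ g (a + H) - g a) :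
    ∃ k, a + L ≤ k ∧ k + L ≤ a + 2 * H ∧ ∀ i, i ≤ L →
      g (k + i) ≤ g k + r * i + (i : ℝ) / L ∧ g (k - i) ≤ g k - r * i + (i : ℝ) / L := by
  have hLr : (1 : ℝ) ≤ L := by exact_mod_cast hL
  have hL0 : (0 : ℝ) < L := by linarith
  have hHr : 4 * (L : ℝ) ^ 2 ≤ H := by exact_mod_cast hH
  have hHL : 2 * (L : ℝ) ≤ H / (2 * L) := by
    rw [le_div_iff₀ (by positivity)]
    nlinarith
  have hHL2 : 1 / (2 * (L : ℝ)) * H = H / (2 * L) := by
    field_simp
  have hHL3 : (H : ℝ) / L = 2 * (H / (2 * L)) := by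
    field_simp
  set c : ℕ := a + H with hcdef
  have hcr : (c : ℝ) = a + H := by rw [hcdef]; push_cast; ring
  set φ : ℕ → ℝ := fun k => g k - r * k - |(k : ℝ) - c| / L with hφ
  obtain ⟨k, hk, hmax⟩ := Finset.exists_max_image (Finset.Icc a (a + 2 * H)) φ
    ⟨a, Finset.mem_Icc.2 ⟨le_rfl, by omega⟩⟩
  rw [Finset.mem_Icc] at hk
  have hφc : φ c = g c - r * c := by
    simp only [hφ, sub_self, abs_zero, zero_div, sub_zero]
  have hkc : φ c ≤ φ k := hmax c (Finset.mem_Icc.2 ⟨by omega, by omega⟩)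
  rw [hφc] at hkc
  have hφk : φ k = g k - r * k - |(k : ℝ) - c| / L := rfl
  have h1 : a + L ≤ k := by
    by_contra hlt
    push Not at hlt
    have hd : ((k : ℝ) - a) < L := by
      have : (k : ℝ) < a + L := by exact_mod_cast hlt
      linarith
    have hd0 : 0 ≤ (k : ℝ) - a := by
      have : (a : ℝ) ≤ k := by exact_mod_cast hk.1
      linarith
    have h3 := (incr hg le_rfl k hk.1 hk.2).2
    have h4 : ((c : ℝ) - k) / L ≤ |(k : ℝ) - c| / L := by
      refine div_le_div_of_nonneg_right ?_ hL0.le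
      rw [abs_sub_comm]
      exact le_abs_self _
    have h5 : ((c : ℝ) - k) / L = H / L - ((k : ℝ) - a) / L := by
      rw [hcr]
      ring
    have h6 : ((k : ℝ) - a) / L < 1 := by
      rw [div_lt_one hL0]
      exact hd
    have h7 : 0 ≤ r * ((k : ℝ) - a) := mul_nonneg hr0 hd0
    have h8 : r * (c : ℝ) = r * a + r * H := by
      rw [hcr]
      ring
    rw [hφk, h8] at hkc
    rw [sub_mul, hHL2] at hc
    nlinarith
  have h2 : k + L ≤ a + 2 * H := by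
    by_contra hlt
    push Not at hlt
    have hd : ((a : ℝ) + 2 * H - k) < L := by
      have : (a : ℝ) + 2 * H < k + L := by exact_mod_cast hlt
      linarith
    have hd0 : 0 ≤ (a : ℝ) + 2 * H - k := by
      have : (k : ℝ) ≤ a + 2 * H := by exact_mod_cast hk.2
      linarith
    have h3 := (incr hg hk.1 (a + 2 * H) hk.2 le_rfl).1
    have h4 : ((k : ℝ) - c) / L ≤ |(k : ℝ) - c| / L :=
      div_le_div_of_nonneg_right (le_abs_self _) hL0.le
    have h5 : ((k : ℝ) - c) / L = H / L - ((a : ℝ) + 2 * H - k) / L := by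
      rw [hcr]
      ring
    have h6 : ((a : ℝ) + 2 * H - k) / L < 1 := by
      rw [div_lt_one hL0]
      exact hd
    have h7 : r * ((a : ℝ) + 2 * H - k) ≤ (a : ℝ) + 2 * H - k := by nlinarith
    have h8 : r * (c : ℝ) = r * a + r * H := by
      rw [hcr]
      ring
    rw [hφk, h8] at hkc
    rw [sub_mul, hHL2] at hc
    nlinarith
  refine ⟨k, h1, h2, fun i hi => ?_⟩
  have hik : i ≤ k := by omega
  constructor
  · have h3 := hmax (k + i) (Finset.mem_Icc.2 ⟨by omega, by omega⟩)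
    simp only [hφ] at h3
    have h4 : |((k + i : ℕ) : ℝ) - c| ≤ |(k : ℝ) - c| + i := by
      have : ((k + i : ℕ) : ℝ) - c = ((k : ℝ) - c) + i := by push_cast; ring
      rw [this]
      refine (abs_add_le _ _).trans ?_
      rw [abs_of_nonneg (Nat.cast_nonneg i : (0 : ℝ) ≤ i)]
    have h5 : |((k + i : ℕ) : ℝ) - c| / L ≤ |(k : ℝ) - c| / L + i / L := by
      rw [← add_div]
      exact div_le_div_of_nonneg_right h4 hL0.le
    push_cast at h3 h5
    linarith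
  · have h3 := hmax (k - i) (Finset.mem_Icc.2 ⟨by omega, by omega⟩)
    simp only [hφ] at h3
    have h4 : |((k - i : ℕ) : ℝ) - c| ≤ |(k : ℝ) - c| + i := by
      have : ((k - i : ℕ) : ℝ) - c = ((k : ℝ) - c) - i := by
        rw [Nat.cast_sub hik]
        ring
      rw [this]
      refine (abs_sub _ _).trans ?_
      rw [abs_of_nonneg (Nat.cast_nonneg i : (0 : ℝ) ≤ i)]
    have h5 : |((k - i : ℕ) : ℝ) - c| / L ≤ |(k : ℝ) - c| / L + i / L := by
      rw [← add_div]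
      exact div_le_div_of_nonneg_right h4 hL0.le
    rw [Nat.cast_sub hik] at h3 h5
    linarith

lemma descend {g : ℕ → ℝ} {L E : ℕ} (hL : 1 ≤ L) (hE : 4 * L ^ 2 ≤ 2 ^ E) (ρ : ℝ) :
    ∀ (j a : ℕ), (∀ k, a ≤ k → k < a + 2 ^ (E + 1 + j) → g k ≤ g (k + 1) ∧ g (k + 1) ≤ g k + 1) →
      g (a + 2 ^ (E + 1 + j)) - g a ≤ ρ * 2 ^ (E + 1 + j) →
      g (a + 2 ^ (E + 1 + j)) - g a < ((j : ℝ) + 1) / (2 * L) * 2 ^ (E + 1 + j) →
      ∃ r : ℝ, 0 ≤ r ∧ r ≤ ρ ∧ r ≤ 1 ∧ ∃ k, a + L ≤ k ∧ k + L ≤ a + 2 ^ (E + 1 + j) ∧ ∀ i, i ≤ L →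
        g (k + i) ≤ g k + r * i + (i : ℝ) / L ∧ g (k - i) ≤ g k - r * i + (i : ℝ) / L := by
  have hLr : (1 : ℝ) ≤ L := by exact_mod_cast hL
  have hL0 : (0 : ℝ) < L := by linarith
  -- the common part
  have key : ∀ (j a : ℕ), (∀ k, a ≤ k → k < a + 2 ^ (E + 1 + j) →
      g k ≤ g (k + 1) ∧ g (k + 1) ≤ g k + 1) →
      g (a + 2 ^ (E + 1 + j)) - g a ≤ ρ * 2 ^ (E + 1 + j) →
      ((g (a + 2 ^ (E + 1 + j)) - g a) / 2 ^ (E + 1 + j) - 1 / (2 * L)) * 2 ^ (E + j) ≤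
        g (a + 2 ^ (E + j)) - g a →
      ∃ r : ℝ, 0 ≤ r ∧ r ≤ ρ ∧ r ≤ 1 ∧ ∃ k, a + L ≤ k ∧ k + L ≤ a + 2 ^ (E + 1 + j) ∧ ∀ i, i ≤ L →
        g (k + i) ≤ g k + r * i + (i : ℝ) / L ∧ g (k - i) ≤ g k - r * i + (i : ℝ) / L := by
    intro j a hg h1 hc
    have hN : 2 ^ (E + 1 + j) = 2 * 2 ^ (E + j) := by
      rw [show E + 1 + j = (E + j) + 1 from by ring, pow_succ]
      ring
    have hNr : (2 : ℝ) ^ (E + 1 + j) = 2 * 2 ^ (E + j) := by
      rw [show E + 1 + j = (E + j) + 1 from by ring, pow_succ]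
      ring
    have hpos : (0 : ℝ) < 2 ^ (E + 1 + j) := by positivity
    have hm := incr hg le_rfl (a + 2 ^ (E + 1 + j)) (Nat.le_add_right _ _) le_rfl
    push_cast at hm
    set r : ℝ := (g (a + 2 ^ (E + 1 + j)) - g a) / 2 ^ (E + 1 + j) with hrdef
    have hr : g (a + 2 ^ (E + 1 + j)) - g a = r * 2 ^ (E + 1 + j) := by
      rw [hrdef, div_mul_cancel₀ _ hpos.ne']
    have hr0 : 0 ≤ r := div_nonneg (by linarith) hpos.le
    have hr1 : r ≤ 1 := by
      rw [hrdef, div_le_one hpos]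
      linarith
    have hrρ : r ≤ ρ := by
      rw [hrdef, div_le_iff₀ hpos]
      exact h1
    refine ⟨r, hr0, hrρ, hr1, ?_⟩
    rw [hN] at hg hr ⊢
    refine step (H := 2 ^ (E + j)) hL hg ?_ r ?_ hr0 hr1 ?_
    · refine hE.trans (Nat.pow_le_pow_right (by norm_num) (by omega))
    · rw [hr, hNr]
      push_cast
      ring
    · push_cast
      exact hc
  intro j
  induction j with
  | zero =>
    intro a hg h1 h2
    refine key 0 a hg h1 ?_
    have hpos : (0 : ℝ) < 2 ^ (E + 1 + 0) := by positivity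
    have hlt : (g (a + 2 ^ (E + 1 + 0)) - g a) / 2 ^ (E + 1 + 0) < 1 / (2 * L) := by
      rw [div_lt_iff₀ hpos]
      simpa using h2
    have hm := (incr hg le_rfl (a + 2 ^ (E + 0)) (Nat.le_add_right _ _)
      (Nat.add_le_add_left (Nat.pow_le_pow_right (by norm_num) (by omega)) _)).1
    have : ((g (a + 2 ^ (E + 1 + 0)) - g a) / 2 ^ (E + 1 + 0) - 1 / (2 * L)) * 2 ^ (E + 0) ≤ 0 :=
      mul_nonpos_of_nonpos_of_nonneg (by linarith) (by positivity)
    linarith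
  | succ j ih =>
    intro a hg h1 h2
    by_cases hc : ((g (a + 2 ^ (E + 1 + (j + 1))) - g a) / 2 ^ (E + 1 + (j + 1)) - 1 / (2 * L)) *
        2 ^ (E + (j + 1)) ≤ g (a + 2 ^ (E + (j + 1))) - g a
    · exact key (j + 1) a hg h1 hc
    · push Not at hc
      have hle : 2 ^ (E + 1 + j) ≤ 2 ^ (E + 1 + (j + 1)) :=
        Nat.pow_le_pow_right (by norm_num) (by omega)
      have hpos : (0 : ℝ) < 2 ^ (E + 1 + (j + 1)) := by positivity
      have hpos' : (0 : ℝ) < 2 ^ (E + 1 + j) := by positivity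
      have hs : (g (a + 2 ^ (E + 1 + (j + 1))) - g a) / 2 ^ (E + 1 + (j + 1)) ≤ ρ := by
        rw [div_le_iff₀ hpos]
        exact h1
      have hs2 : (g (a + 2 ^ (E + 1 + (j + 1))) - g a) / 2 ^ (E + 1 + (j + 1)) <
          ((j + 1 : ℕ) + 1 : ℝ) / (2 * L) := by
        rw [div_lt_iff₀ hpos]
        exact h2
      have hE1 : E + (j + 1) = E + 1 + j := by ring
      rw [hE1] at hc
      have hL2 : (0 : ℝ) < 1 / (2 * L) := by positivity
      obtain ⟨r, hr0, hrρ, hr1, k, hk1, hk2, hk⟩ := ih a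
        (fun k hk1 hk2 => hg k hk1 (by omega)) (by nlinarith) (by
          refine hc.trans ?_
          refine mul_lt_mul_of_pos_right ?_ hpos'
          have : ((j + 1 : ℕ) + 1 : ℝ) / (2 * L) = (j + 1) / (2 * L) + 1 / (2 * L) := by
            push_cast
            ring
          linarith)
      exact ⟨r, hr0, hrρ, hr1, k, hk1, by omega, hk⟩

theorem slope : SlopeStatement := by
  intro L δ hL hδ
  obtain ⟨E, hE⟩ : ∃ E : ℕ, 4 * L ^ 2 ≤ 2 ^ E := ⟨4 * L ^ 2, Nat.lt_two_pow_self.le⟩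
  have hLr : (1 : ℝ) ≤ L := by exact_mod_cast hL
  have hL0 : (0 : ℝ) < L := by linarith
  refine ⟨E + 1 + 2 * L, fun g a hg h1 => ?_⟩
  refine descend hL hE (1 / 2 + δ) (2 * L) a hg h1 ?_
  have hm := (incr hg le_rfl (a + 2 ^ (E + 1 + 2 * L)) (Nat.le_add_right _ _) le_rfl).2
  push_cast at hm
  have hpos : (0 : ℝ) < 2 ^ (E + 1 + 2 * L) := by positivity
  have h3 : (1 : ℝ) < (2 * (L : ℝ) + 1) / (2 * L) := by
    rw [lt_div_iff₀ (by positivity)]
    linarith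
  have h4 : (1 : ℝ) * 2 ^ (E + 1 + 2 * L) < (((2 * L : ℕ) : ℝ) + 1) / (2 * L) *
      2 ^ (E + 1 + 2 * L) := by
    push_cast
    exact mul_lt_mul_of_pos_right h3 hpos
  linarith

end Pool.Agent.Lib.MP_cdd7b4_an.MX.H70
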