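import Pool.Agent.Lib.MP_cdd7b4_an.MX.Iface

set_option autoImplicit false

/-! # HEAVY: the tails of a population from the means of the maxima of samples -/

namespace Pool.Agent.Lib.MP_cdd7b4_an.MX.H70

open Pool.Agent.Lib.MP_cdd7b4_an.H80
open scoped BigOperators

lemma summable_aux {ρ : ℝ} (h0 : 0 < ρ) (h1 : ρ < 1) :
    Summable fun s : ℕ => (1 + (s : ℝ)) ^ 4 * ρ ^ s := by
  have h := summable_pow_mul_geometric_of_norm_lt_one 4 (r := ρ)
    (by rw [Real.norm_eq_abs, abs_of_pos h0]; exact h1)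
  have h' := (summable_nat_add_iff 1).2 h
  refine (h'.mul_right ρ⁻¹).congr fun s => ?_
  push_cast
  rw [pow_succ ρ s, add_comm (1 : ℝ) s]
  field_simp

/-- layers -/
lemma layer (q x : ℝ) (hq : 0 ≤ q) (hx : 0 ≤ x) (i0 : ℕ) : ∀ i1, i0 ≤ i1 →
    (if (2 : ℝ) ^ i0 < x ∧ x ≤ (2 : ℝ) ^ i1 then x ^ q else 0) ≤
      ∑ i ∈ Finset.Ico i0 i1, ((2 : ℝ) ^ (i + 1)) ^ q * (if (2 : ℝ) ^ i < x then (1 : ℝ) else 0) := by
  intro i1 h
  induction i1, h using Nat.le_induction with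
  | base =>
    rw [if_neg (by rintro ⟨h1, h2⟩; linarith)]
    simp
  | succ i1 h ih =>
    rw [Finset.sum_Ico_succ_top h]
    have h0 : 0 ≤ ((2 : ℝ) ^ (i1 + 1)) ^ q * (if (2 : ℝ) ^ i1 < x then (1 : ℝ) else 0) := by
      split_ifs <;> positivity
    have h1 : 0 ≤ ∑ i ∈ Finset.Ico i0 i1,
        ((2 : ℝ) ^ (i + 1)) ^ q * (if (2 : ℝ) ^ i < x then (1 : ℝ) else 0) := by
      refine Finset.sum_nonneg fun i _ => ?_
      split_ifs <;> positivity
    by_cases hc : (2 : ℝ) ^ i1 < x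
    · rw [if_pos hc, mul_one]
      split_ifs with h2
      · have := Real.rpow_le_rpow hx h2.2 hq
        linarith
      · have : 0 ≤ ((2 : ℝ) ^ (i1 + 1)) ^ q := by positivity
        linarith
    · push Not at hc
      refine le_trans ?_ (ih.trans (le_add_of_nonneg_right h0))
      by_cases h2 : (2 : ℝ) ^ i0 < x
      · rw [if_pos ⟨h2, hc.trans (pow_le_pow_right₀ (by norm_num) (by omega))⟩, if_pos ⟨h2, hc⟩]
      · rw [if_neg (fun h => h2 h.1), if_neg (fun h => h2 h.1)]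

lemma sq_rpow_half (n : ℕ) : ((2 : ℝ) ^ ((n : ℝ) / 2)) ^ 2 = 2 ^ n := by
  rw [← Real.rpow_natCast, ← Real.rpow_mul (by norm_num), ← Real.rpow_natCast]
  congr 1
  push_cast
  ring

lemma rpow_half_neg (n : ℕ) : (2 : ℝ) ^ ((n : ℝ) / 2) * (2 : ℝ) ^ (-((n : ℝ) / 2)) = 1 := by
  rw [← Real.rpow_add (by norm_num)]
  simp

/-- the tail probabilities -/
lemma tails (hH : Heavy1Statement) {β : ℝ} (hβ : 1 ≤ β) {P : Type} [Fintype P] [Nonempty P]
    {g : P → ℝ} {J : ℕ} {h : (j : ℕ) → (Fin (2 ^ j) → P) → ℝ} (hg : ∀ z, 0 ≤ g z)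
    (hh : ∀ j f, 0 ≤ h j f) (hk : ∀ j ≤ J, (∀ f i, g (f i) ≤ h j f) ∧
      av (h j) ≤ β * (1 + j) ^ 2 * (2 : ℝ) ^ ((j : ℝ) / 2)) (i : ℕ) (hi : 3 * i + 3 ≤ J) :
    av (fun z => if (2 : ℝ) ^ i < g z then (1 : ℝ) else 0) ≤
      1296 * β ^ 2 * (1 + (i : ℝ)) ^ 4 * (1 / 4) ^ i := by
  set θ := av (fun z => if (2 : ℝ) ^ i < g z then (1 : ℝ) else 0) with hθ
  have hθ1 : θ ≤ 1 := by
    rw [hθ]
    refine (av_mono (g := fun _ => (1 : ℝ)) fun z => ?_).trans_eq (av_const 1)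
    split_ifs <;> norm_num
  have hi0 : (0 : ℝ) ≤ i := Nat.cast_nonneg i
  by_cases hc : θ * 2 ^ (3 * i + 3) ≤ 1
  · have h1 : θ ≤ 1 / 2 ^ (3 * i + 3) := by
      rw [le_div_iff₀ (by positivity)]
      exact hc
    refine h1.trans ?_
    have h2 : (1 : ℝ) / 2 ^ (3 * i + 3) ≤ (1 / 4) ^ i := by
      rw [one_div_pow]
      refine one_div_le_one_div_of_le (by positivity) ?_
      have : (4 : ℝ) ^ i = 2 ^ (2 * i) := by rw [pow_mul]; norm_num
      rw [this]
      exact pow_le_pow_right₀ (by norm_num) (by omega)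
    refine h2.trans ?_
    have h3 : 1 ≤ 1296 * β ^ 2 * (1 + (i : ℝ)) ^ 4 := by
      have h4 : 1 ≤ β ^ 2 := one_le_pow₀ hβ
      have h5 : 1 ≤ (1 + (i : ℝ)) ^ 4 := one_le_pow₀ (by linarith)
      nlinarith
    exact le_mul_of_one_le_left (by positivity) h3
  · push Not at hc
    have hθ0 : 0 < θ := by
      by_contra hn
      push Not at hn
      have : θ * 2 ^ (3 * i + 3) ≤ 0 := mul_nonpos_of_nonpos_of_nonneg hn (by positivity)
      linarith
    obtain ⟨n, hn1, hn2⟩ := exists_nat_pow_near (x := 1 / θ) (y := 2)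
      (by rw [le_div_iff₀ hθ0]; linarith) (by norm_num)
    have hn3 : n ≤ 3 * i + 2 := by
      have h1 : (2 : ℝ) ^ n < 2 ^ (3 * i + 3) := by
        refine hn1.trans_lt ?_
        rw [div_lt_iff₀ hθ0]
        linarith
      have := (pow_lt_pow_iff_right₀ (by norm_num : (1 : ℝ) < 2)).1 h1
      omega
    obtain ⟨hk1, hk2⟩ := hk n (by omega)
    rw [le_div_iff₀ hθ0] at hn1
    rw [div_lt_iff₀ hθ0] at hn2
    have hb := (hH P g (2 ^ n) (h n) (2 ^ i) hg Nat.one_le_two_pow (by positivity) (hh n) hk1).2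
      (by push_cast; exact hn1)
    push_cast at hb
    set s := (2 : ℝ) ^ ((n : ℝ) / 2) with hs
    have hs0 : 0 < s := by positivity
    have hs2 : s ^ 2 = 2 ^ n := sq_rpow_half n
    -- `2^i / 2 < 2 β (1+n)² s`
    have h1 : (2 : ℝ) ^ i < 4 * β * (1 + n) ^ 2 * s := by
      have h2 : (2 : ℝ) ^ i * (2 ^ (n + 1) * θ) ≤ 4 * β * (1 + n) ^ 2 * s := by
        rw [pow_succ]
        have : (2 : ℝ) ^ i * (2 ^ n * 2 * θ) = 2 * (2 ^ n * 2 ^ i * θ) := by ring
        rw [this]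
        linarith
      refine lt_of_lt_of_le ?_ h2
      exact lt_mul_of_one_lt_right (by positivity) hn2
    have h3 : ((2 : ℝ) ^ i) ^ 2 ≤ (4 * β * (1 + n) ^ 2 * s) ^ 2 :=
      pow_le_pow_left₀ (by positivity) h1.le 2
    have h4 : (4 : ℝ) ^ i = ((2 : ℝ) ^ i) ^ 2 := by
      rw [← pow_mul, mul_comm, pow_mul]
      norm_num
    have h5 : (4 : ℝ) ^ i ≤ 16 * β ^ 2 * (1 + n) ^ 4 * 2 ^ n := by
      rw [h4, ← hs2]
      refine h3.trans_eq ?_
      ring
    have h6 : (1 + (n : ℝ)) ^ 4 ≤ 81 * (1 + (i : ℝ)) ^ 4 := by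
      have h7 : (1 + (n : ℝ)) ≤ 3 * (1 + i) := by
        have : (n : ℝ) ≤ 3 * i + 2 := by exact_mod_cast hn3
        linarith
      calc (1 + (n : ℝ)) ^ 4 ≤ (3 * (1 + i)) ^ 4 := pow_le_pow_left₀ (by positivity) h7 4
        _ = 81 * (1 + (i : ℝ)) ^ 4 := by ring
    have h8 : θ * 4 ^ i ≤ 1296 * β ^ 2 * (1 + (i : ℝ)) ^ 4 := by
      calc θ * 4 ^ i ≤ θ * (16 * β ^ 2 * (1 + n) ^ 4 * 2 ^ n) :=
            mul_le_mul_of_nonneg_left h5 hθ0.le
        _ = (16 * β ^ 2 * (1 + n) ^ 4) * (2 ^ n * θ) := by ring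
        _ ≤ (16 * β ^ 2 * (1 + n) ^ 4) * 1 := mul_le_mul_of_nonneg_left hn1 (by positivity)
        _ ≤ 16 * β ^ 2 * (81 * (1 + (i : ℝ)) ^ 4) := by
          rw [mul_one]
          exact mul_le_mul_of_nonneg_left h6 (by positivity)
        _ = 1296 * β ^ 2 * (1 + (i : ℝ)) ^ 4 := by ring
    rw [one_div_pow, mul_one_div, le_div_iff₀ (by positivity)]
    exact h8

theorem heavy (hH : Heavy1Statement) : HeavyStatement := by
  intro β q hβ hq hq2
  set ρ : ℝ := (2 : ℝ) ^ (-(2 - q)) with hρ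
  have hρ0 : 0 < ρ := by positivity
  have hρ1 : ρ < 1 := Real.rpow_lt_one_of_one_lt_of_neg (by norm_num) (by linarith)
  set S : ℝ := ∑' s : ℕ, (1 + (s : ℝ)) ^ 4 * ρ ^ s with hS
  have hS0 : 0 ≤ S := tsum_nonneg fun s => by positivity
  have hβ0 : 0 < β := by linarith
  refine ⟨1296 * β ^ 2 * 2 ^ q * S + 4 * β ^ 2, by positivity, ?_⟩
  intro P _ _ g J h hg hgβ hh hk i0 i1 hi hJ
  have hT := fun i (hi : 3 * i + 3 ≤ J) => tails hH hβ hg hh hk i hi
  constructor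
  · have h1 : av (fun z => if (2 : ℝ) ^ i0 < g z ∧ g z ≤ (2 : ℝ) ^ i1 then g z ^ q else 0) ≤
        ∑ i ∈ Finset.Ico i0 i1, ((2 : ℝ) ^ (i + 1)) ^ q *
          av (fun z => if (2 : ℝ) ^ i < g z then (1 : ℝ) else 0) := by
      refine (av_mono fun z => layer q (g z) (by linarith) (hg z) i0 i1 hi).trans_eq ?_
      rw [av_sum]
      exact Finset.sum_congr rfl fun i _ => av_const_mul _ _
    refine h1.trans ?_
    have h2 : ∀ i ∈ Finset.Ico i0 i1, ((2 : ℝ) ^ (i + 1)) ^ q *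
        av (fun z => if (2 : ℝ) ^ i < g z then (1 : ℝ) else 0) ≤
        1296 * β ^ 2 * 2 ^ q * ((1 + (i : ℝ)) ^ 4 * ρ ^ i) := by
      intro i hi'
      rw [Finset.mem_Ico] at hi'
      have h3 := hT i (by omega)
      refine (mul_le_mul_of_nonneg_left h3 (by positivity)).trans_eq ?_
      have e1 : ((2 : ℝ) ^ (i + 1)) ^ q * (1 / 4) ^ i = 2 ^ q * ρ ^ i := by
        rw [hρ, ← Real.rpow_natCast (2 : ℝ) (i + 1), ← Real.rpow_mul (by norm_num),
          ← Real.rpow_natCast ((2 : ℝ) ^ (-(2 - q))) i, ← Real.rpow_mul (by norm_num)]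
        have e2 : ((1 : ℝ) / 4) ^ i = (2 : ℝ) ^ (-(2 * (i : ℝ))) := by
          rw [Real.rpow_neg (by norm_num), Real.rpow_mul (by norm_num), Real.rpow_natCast,
            one_div_pow, one_div]
          norm_num
        rw [e2, ← Real.rpow_add (by norm_num), ← Real.rpow_add (by norm_num)]
        congr 1
        push_cast
        ring
      calc ((2 : ℝ) ^ (i + 1)) ^ q * (1296 * β ^ 2 * (1 + (i : ℝ)) ^ 4 * (1 / 4) ^ i) =
            1296 * β ^ 2 * (1 + (i : ℝ)) ^ 4 * (((2 : ℝ) ^ (i + 1)) ^ q * (1 / 4) ^ i) := by ring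
        _ = _ := by rw [e1]; ring
    refine (Finset.sum_le_sum h2).trans ?_
    rw [← Finset.mul_sum, Finset.sum_Ico_eq_sum_range]
    have h4 : ∑ s ∈ Finset.range (i1 - i0), ((1 + ((i0 + s : ℕ) : ℝ)) ^ 4 * ρ ^ (i0 + s)) ≤
        (1 + (i0 : ℝ)) ^ 4 * ρ ^ i0 * S := by
      have h5 : ∀ s ∈ Finset.range (i1 - i0), ((1 + ((i0 + s : ℕ) : ℝ)) ^ 4 * ρ ^ (i0 + s)) ≤
          (1 + (i0 : ℝ)) ^ 4 * ρ ^ i0 * ((1 + (s : ℝ)) ^ 4 * ρ ^ s) := by
        intro s _
        have h6 : (1 + ((i0 + s : ℕ) : ℝ)) ≤ (1 + (i0 : ℝ)) * (1 + s) := by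
          push_cast
          have : (0 : ℝ) ≤ i0 * s := by positivity
          nlinarith
        have h7 := pow_le_pow_left₀ (by positivity) h6 4
        rw [mul_pow] at h7
        rw [pow_add]
        calc (1 + ((i0 + s : ℕ) : ℝ)) ^ 4 * (ρ ^ i0 * ρ ^ s) ≤
              ((1 + (i0 : ℝ)) ^ 4 * (1 + (s : ℝ)) ^ 4) * (ρ ^ i0 * ρ ^ s) :=
              mul_le_mul_of_nonneg_right h7 (by positivity)
          _ = _ := by ring
      refine (Finset.sum_le_sum h5).trans ?_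
      rw [← Finset.mul_sum]
      refine mul_le_mul_of_nonneg_left ?_ (by positivity)
      exact (summable_aux hρ0 hρ1).sum_le_tsum _ fun s _ => by positivity
    have e3 : (2 : ℝ) ^ (-((2 - q) * i0)) = ρ ^ i0 := by
      rw [hρ, ← Real.rpow_natCast ((2 : ℝ) ^ (-(2 - q))) i0, ← Real.rpow_mul (by norm_num)]
      congr 1
      ring
    rw [e3]
    calc 1296 * β ^ 2 * 2 ^ q * ∑ s ∈ Finset.range (i1 - i0),
          ((1 + ((i0 + s : ℕ) : ℝ)) ^ 4 * ρ ^ (i0 + s)) ≤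
          1296 * β ^ 2 * 2 ^ q * ((1 + (i0 : ℝ)) ^ 4 * ρ ^ i0 * S) :=
          mul_le_mul_of_nonneg_left h4 (by positivity)
      _ = 1296 * β ^ 2 * 2 ^ q * S * (1 + (i0 : ℝ)) ^ 4 * ρ ^ i0 := by ring
      _ ≤ (1296 * β ^ 2 * 2 ^ q * S + 4 * β ^ 2) * (1 + (i0 : ℝ)) ^ 4 * ρ ^ i0 := by
        refine mul_le_mul_of_nonneg_right (mul_le_mul_of_nonneg_right ?_ (by positivity))
          (by positivity)
        nlinarith [sq_nonneg β]
  · -- the far tail
    have hC : 4 * β ^ 2 * (1 + (i1 : ℝ)) ^ 2 * (2 : ℝ) ^ (-((i1 : ℝ) / 2)) ≤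
        (1296 * β ^ 2 * 2 ^ q * S + 4 * β ^ 2) * (1 + (i1 : ℝ)) ^ 2 *
          (2 : ℝ) ^ (-((i1 : ℝ) / 2)) := by
      refine mul_le_mul_of_nonneg_right (mul_le_mul_of_nonneg_right ?_ (by positivity))
        (by positivity)
      have : 0 ≤ 1296 * β ^ 2 * 2 ^ q * S := by positivity
      linarith
    refine le_trans ?_ hC
    set t : ℝ := (2 : ℝ) ^ (-((i1 : ℝ) / 2)) with ht
    have ht0 : 0 < t := by positivity
    set T : ℝ := (2 : ℝ) ^ ((i1 : ℝ) / 2) with hT'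
    have hTt : T * t = 1 := rpow_half_neg i1
    have hT0 : 0 < T := by positivity
    have hT2 : T ^ 2 = 2 ^ i1 := sq_rpow_half i1
    have hi1 : (0 : ℝ) ≤ i1 := Nat.cast_nonneg i1
    have h12 : 1 ≤ (1 + (i1 : ℝ)) ^ 2 := one_le_pow₀ (by linarith)
    by_cases hc : (2 : ℝ) ^ i1 < 2 * β
    · have h1 : av (fun z => if (2 : ℝ) ^ i1 < g z then g z else 0) ≤ β := by
        refine le_trans (av_mono fun z => ?_) hgβ
        split_ifs
        · exact le_rfl
        · exact hg z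
      refine h1.trans ?_
      -- `T ≤ 2 β`, so `1 ≤ 2 β t`
      have h2 : T ≤ 2 * β := by
        have h3 : T ^ 2 ≤ (2 * β) ^ 2 := by
          rw [hT2]
          nlinarith
        exact le_of_sq_le_sq h3 (by linarith)
      have h3 : 1 ≤ 2 * β * t := by
        rw [← hTt]
        exact mul_le_mul_of_nonneg_right h2 ht0.le
      calc β ≤ β * (2 * β * t) := le_mul_of_one_le_right hβ0.le h3
        _ = 2 * β ^ 2 * 1 * t := by ring
        _ ≤ 4 * β ^ 2 * (1 + (i1 : ℝ)) ^ 2 * t := by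
          refine mul_le_mul_of_nonneg_right ?_ ht0.le
          nlinarith [sq_nonneg β]
    · push Not at hc
      obtain ⟨n, hn1, hn2⟩ := exists_nat_pow_near (x := (2 : ℝ) ^ i1 / (2 * β)) (y := 2)
        (by rw [le_div_iff₀ (by positivity)]; linarith) (by norm_num)
      rw [le_div_iff₀ (by positivity)] at hn1
      rw [div_lt_iff₀ (by positivity)] at hn2
      have hn3 : n ≤ i1 := by
        have h1 : (2 : ℝ) ^ n ≤ 2 ^ i1 := by
          refine le_trans ?_ hn1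
          exact le_mul_of_one_le_right (by positivity) (by linarith)
        exact (pow_le_pow_iff_right₀ (by norm_num : (1 : ℝ) < 2)).1 h1
      obtain ⟨hk1, hk2⟩ := hk n (by omega)
      have hm : (2 : ℝ) ^ i1 * av (fun z => if (2 : ℝ) ^ i1 < g z then (1 : ℝ) else 0) ≤ β := by
        refine le_trans ?_ hgβ
        rw [← av_const_mul]
        refine av_mono fun z => ?_
        split_ifs with h
        · linarith
        · simpa using hg z
      set θ := av (fun z => if (2 : ℝ) ^ i1 < g z then (1 : ℝ) else 0) with hθ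
      have hθ0 : 0 ≤ θ := av_nonneg fun z => by split_ifs <;> norm_num
      have hnθ : (2 : ℝ) ^ n * θ ≤ 1 / 2 := by
        have h1 : (2 : ℝ) ^ n * (2 * β) * θ ≤ β := (mul_le_mul_of_nonneg_right hn1 hθ0).trans hm
        have h2 : (2 * β) * ((2 : ℝ) ^ n * θ) ≤ (2 * β) * (1 / 2) := by linarith
        exact le_of_mul_le_mul_left h2 (by positivity)
      have hb := (hH P g (2 ^ n) (h n) (2 ^ i1) hg Nat.one_le_two_pow (by positivity) (hh n)
        hk1).1 (by push_cast; exact hnθ)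
      push_cast at hb
      set s := (2 : ℝ) ^ ((n : ℝ) / 2) with hs
      have hs0 : 0 < s := by positivity
      have hs2 : s ^ 2 = 2 ^ n := sq_rpow_half n
      -- `s² γ ≤ 2 β (1+n)² s`, so `s γ ≤ 2 β (1+n)²`
      set γ := av (fun z => if (2 : ℝ) ^ i1 < g z then g z else 0) with hγ
      have h1 : s * γ ≤ 2 * β * (1 + n) ^ 2 := by
        have h2 : s * (s * γ) ≤ s * (2 * β * (1 + n) ^ 2) := by
          rw [← mul_assoc, ← sq, hs2]
          calc (2 : ℝ) ^ n * γ ≤ 2 * av (h n) := hb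
            _ ≤ 2 * (β * (1 + n) ^ 2 * s) := by linarith
            _ = s * (2 * β * (1 + n) ^ 2) := by ring
        exact le_of_mul_le_mul_left h2 hs0
      -- `T² < 4 β s²`, so `T ≤ 2 β s`
      have h3 : T ≤ 2 * β * s := by
        have h4 : T ^ 2 ≤ (2 * β * s) ^ 2 := by
          rw [hT2, mul_pow, hs2]
          rw [pow_succ] at hn2
          have h5 : (0 : ℝ) < 2 ^ n := by positivity
          have h6 : (2 : ℝ) ^ n * 2 * (2 * β) ≤ (2 * β) ^ 2 * 2 ^ n := by nlinarith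
          linarith
        exact le_of_sq_le_sq h4 (by positivity)
      have hγ0 : 0 ≤ γ := av_nonneg fun z => by
        split_ifs
        · exact hg z
        · exact le_rfl
      have h7 : T * γ ≤ 4 * β ^ 2 * (1 + n) ^ 2 := by
        calc T * γ ≤ (2 * β * s) * γ := mul_le_mul_of_nonneg_right h3 hγ0
          _ = (2 * β) * (s * γ) := by ring
          _ ≤ (2 * β) * (2 * β * (1 + n) ^ 2) := mul_le_mul_of_nonneg_left h1 (by positivity)
          _ = 4 * β ^ 2 * (1 + n) ^ 2 := by ring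
      have h8 : (1 + (n : ℝ)) ^ 2 ≤ (1 + (i1 : ℝ)) ^ 2 := by
        have : (n : ℝ) ≤ i1 := by exact_mod_cast hn3
        exact pow_le_pow_left₀ (by positivity) (by linarith) 2
      calc γ = (T * t) * γ := by rw [hTt, one_mul]
        _ = (T * γ) * t := by ring
        _ ≤ (4 * β ^ 2 * (1 + n) ^ 2) * t := mul_le_mul_of_nonneg_right h7 ht0.le
        _ ≤ (4 * β ^ 2 * (1 + (i1 : ℝ)) ^ 2) * t := by
          refine mul_le_mul_of_nonneg_right (mul_le_mul_of_nonneg_left h8 (by positivity)) ht0.le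

end Pool.Agent.Lib.MP_cdd7b4_an.MX.H70
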